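import Pool.Agent.Q27.LR.Spec

/-!
# Finitely generated virtually free groups are hyperbolic and their finitely generated subgroups are
quasiconvex
-/

set_option autoImplicit false

namespace Q27.LR

open FreeGroup Pool.Agent.TH97.VR Pool.Agent.H97R3.VR

variable {α : Type} [DecidableEq α] {G : Type} [Group G]

/-- The data used: maps between the group and the tree. -/
structure Data (S : Set G) (ρ : G → FreeGroup α) (σ : FreeGroup α → G) : Prop where
  gen : IsFinGen S
  lip : ∀ x y, (Cay S).dist (σ x) (σ y) ≤ dF x y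
  near : ∀ g, (Cay S).dist g (σ (ρ g)) ≤ 1
  bdd : ∀ U : Set G, U.Finite → ∃ L, ∀ g g' : G, g⁻¹ * g' ∈ U → dF (ρ g) (ρ g') ≤ L

variable {S : Set G} {ρ : G → FreeGroup α} {σ : FreeGroup α → G}

theorem Data.tri (h : Data S ρ σ) (x y z : G) :
    (Cay S).dist x z ≤ (Cay S).dist x y + (Cay S).dist y z := (cay_conn h.gen).dist_triangle

/-- A point of the tree between the images of `a` and `b` is almost between `a` and `b`. -/
theorem Data.star (h : Data S ρ σ) : ∃ C, ∀ (a b : G) (m : FreeGroup α), Bt (ρ a) (ρ b) m →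
    (Cay S).dist a (σ m) + (Cay S).dist (σ m) b ≤ (Cay S).dist a b + C := by
  obtain ⟨L, hL⟩ := h.bdd (S ∪ (fun s => s⁻¹) '' S) (h.gen.1.union (h.gen.1.image _))
  refine ⟨2 * L + 2, fun a b m hm => ?_⟩
  obtain ⟨q, q0, q1, hq⟩ := conn_geod (cay_conn h.gen) a _ b rfl
  have key : ∃ i ≤ (Cay S).dist a b, dF m (ρ (q i)) ≤ L := by
    have hb : Bt (ρ (q 0)) (ρ (q ((Cay S).dist a b))) m := by
      rw [q0, q1]
      exact hm
    rcases bottleneck (fun i => ρ (q i)) ((Cay S).dist a b) m hb with h1 | ⟨i, hi, h1⟩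
    · exact ⟨0, Nat.zero_le _, by rw [h1, dF_self]; exact Nat.zero_le _⟩
    · refine ⟨i, hi.le, ?_⟩
      have h2 := hq i (i + 1) (Nat.le_succ _) hi
      have h3 : (Cay S).dist (q i) (q (i + 1)) = 1 := by omega
      have h4 := SimpleGraph.dist_eq_one_iff_adj.1 h3
      have h5 : dF (ρ (q i)) (ρ (q (i + 1))) ≤ L := by
        rcases h4.2 with h6 | h6
        · exact hL _ _ (Or.inl h6)
        · refine hL _ _ (Or.inr ⟨_, h6, ?_⟩)
          simp only
          group
      have h6 : dF (ρ (q i)) m + dF m (ρ (q (i + 1))) = dF (ρ (q i)) (ρ (q (i + 1))) := h1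
      rw [dF_comm m]
      omega
  obtain ⟨i, hi, h1⟩ := key
  have e1 := hq 0 i (Nat.zero_le _) hi
  have e2 := hq i _ hi le_rfl
  rw [q0] at e1
  rw [q1] at e2
  have e3 := h.near (q i)
  have e4 := h.lip m (ρ (q i))
  have e5 : (Cay S).dist (q i) (σ m) ≤ 1 + L := by
    have := h.tri (q i) (σ (ρ (q i))) (σ m)
    rw [SimpleGraph.dist_comm (u := σ (ρ (q i)))] at this
    omega
  have e6 := h.tri a (q i) (σ m)
  have e7 := h.tri (σ m) (q i) b
  rw [SimpleGraph.dist_comm (u := σ m) (v := q i)] at e7
  omega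

theorem Data.hyperbolic (h : Data S ρ σ) : IsHyperbolic G := by
  obtain ⟨C, hC⟩ := h.star
  refine ⟨S, h.gen, C, fun x y z w => ?_⟩
  obtain ⟨p, ⟨h1, h2, h3⟩, -⟩ := median (ρ x) (ρ y) (ρ z)
  have a1 := h.tri x (σ p) y
  have a2 := h.tri z (σ p) w
  have c1 := SimpleGraph.dist_comm (G := Cay S) (u := σ p) (v := z)
  have c2 := SimpleGraph.dist_comm (G := Cay S) (u := σ p) (v := y)
  rcases h1.tri (ρ w) with h4 | h4
  · have b1 := hC x w p h4
    have b2 := hC y z p h2
    have : (Cay S).dist x y + (Cay S).dist z w ≤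
        (Cay S).dist x w + (Cay S).dist y z + 2 * C := by omega
    exact this.trans (Nat.add_le_add_right (le_max_right _ _) _)
  · have b1 := hC x z p h3
    have b2 := hC y w p h4.symm
    have : (Cay S).dist x y + (Cay S).dist z w ≤
        (Cay S).dist x z + (Cay S).dist y w + 2 * C := by omega
    exact this.trans (Nat.add_le_add_right (le_max_left _ _) _)

theorem chain_of_closure {H : Subgroup G} {U : Set G} (hU : Subgroup.closure U = H) {a b : G}
    (ha : a ∈ H) (hb : b ∈ H) : ∃ (k : ℕ) (p : ℕ → G), p 0 = a ∧ p k = b ∧ (∀ i, p i ∈ H) ∧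
      ∀ i < k, (p i)⁻¹ * p (i + 1) ∈ U ∪ (fun s => s⁻¹) '' U := by
  have h1 : a⁻¹ * b ∈ Subgroup.closure U := by
    rw [hU]
    exact H.mul_mem (H.inv_mem ha) hb
  have h2 : ∀ g ∈ Subgroup.closure U, ∀ a ∈ H, ∃ (k : ℕ) (p : ℕ → G), p 0 = a ∧ p k = a * g ∧
      (∀ i, p i ∈ H) ∧ ∀ i < k, (p i)⁻¹ * p (i + 1) ∈ U ∪ (fun s => s⁻¹) '' U := by
    intro g hg
    induction hg using Subgroup.closure_induction with
    | mem s hs =>
      intro a ha
      have hsH : s ∈ H := by
        rw [← hU]
        exact Subgroup.subset_closure hs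
      refine ⟨1, fun i => if i = 0 then a else a * s, rfl, rfl, ?_, ?_⟩
      · intro i
        simp only
        split_ifs
        · exact ha
        · exact H.mul_mem ha hsH
      · intro i hi
        have : i = 0 := by omega
        subst this
        left
        simpa using hs
    | one =>
      intro a ha
      exact ⟨0, fun _ => a, rfl, by rw [mul_one], fun _ => ha, fun i hi => by omega⟩
    | mul x y hx hy ihx ihy =>
      intro a ha
      obtain ⟨k, p, p0, pk, pH, hp⟩ := ihx a ha
      obtain ⟨l, q, q0, ql, qH, hq⟩ := ihy (a * x) (by rw [← pk]; exact pH k)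
      refine ⟨k + l, fun i => if i ≤ k then p i else q (i - k), ?_, ?_, ?_, ?_⟩
      · simp only [Nat.zero_le, if_true]
        exact p0
      · by_cases hl : l = 0
        · subst hl
          simp only [add_zero, le_refl, if_true]
          rw [pk, ← mul_assoc, ← ql, q0]
        · have : ¬ k + l ≤ k := by omega
          simp only [this, if_false]
          rw [show k + l - k = l by omega, ql, mul_assoc]
      · intro i
        simp only
        split_ifs
        · exact pH i
        · exact qH _
      · intro i hi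
        by_cases h3 : i + 1 ≤ k
        · simp only [show i ≤ k by omega, h3, if_true]
          exact hp i (by omega)
        · by_cases h4 : i ≤ k
          · have : i = k := by omega
            subst this
            simp only [le_refl, if_true, h3, if_false]
            rw [pk, ← q0, show i + 1 - i = 0 + 1 by omega]
            exact hq 0 (by omega)
          · simp only [h4, h3, if_false]
            rw [show i + 1 - k = (i - k) + 1 by omega]
            exact hq _ (by omega)
    | inv x hx ih =>
      intro a ha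
      have hxH : x ∈ H := by
        rw [← hU]
        exact hx
      obtain ⟨k, p, p0, pk, pH, hp⟩ := ih (a * x⁻¹) (H.mul_mem ha (H.inv_mem hxH))
      refine ⟨k, fun i => p (k - i), ?_, ?_, fun i => pH _, ?_⟩
      · simp only [Nat.sub_zero]
        rw [pk, inv_mul_cancel_right]
      · simp only [Nat.sub_self]
        exact p0
      · intro i hi
        have h3 := hp (k - (i + 1)) (by omega)
        rw [show k - (i + 1) + 1 = k - i by omega] at h3
        have h4 : (p (k - i))⁻¹ * p (k - (i + 1)) =
            ((p (k - (i + 1)))⁻¹ * p (k - i))⁻¹ := by group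
        simp only
        rw [h4]
        rcases h3 with h3 | ⟨s, hs, h3⟩
        · exact Or.inr ⟨_, h3, rfl⟩
        · left
          rw [← h3]
          simpa using hs
  obtain ⟨k, p, p0, pk, pH, hp⟩ := h2 _ h1 a ha
  exact ⟨k, p, p0, by rw [pk, mul_inv_cancel_left], pH, hp⟩

theorem Data.quasiconvex (h : Data S ρ σ) {H : Subgroup G} (hH : H.FG) : IsQuasiconvex H := by
  obtain ⟨U, hU, hUf⟩ := (Subgroup.fg_iff H).1 hH
  obtain ⟨C, hC⟩ := h.star
  obtain ⟨L, hL⟩ := h.bdd (U ∪ (fun s => s⁻¹) '' U) (hUf.union (hUf.image _))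
  refine ⟨S, h.gen, C + (L + 1), fun a ha b hb m hm => ?_⟩
  obtain ⟨m', ⟨h1, h2, h3⟩, -⟩ := median (ρ a) (ρ b) (ρ m)
  have b1 := hC a m m' h3
  have b2 := hC b m m' h2
  have b3 := h.tri a (σ m') b
  have c1 := SimpleGraph.dist_comm (G := Cay S) (u := σ m') (v := b)
  have c2 := SimpleGraph.dist_comm (G := Cay S) (u := b) (v := m)
  have c3 := SimpleGraph.dist_comm (G := Cay S) (u := σ m') (v := m)
  have b4 : (Cay S).dist m (σ m') ≤ C := by omega
  obtain ⟨k, p, p0, pk, pH, hp⟩ := chain_of_closure hU ha hb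
  have key : ∃ i, dF m' (ρ (p i)) ≤ L := by
    have hb : Bt (ρ (p 0)) (ρ (p k)) m' := by
      rw [p0, pk]
      exact h1
    rcases bottleneck (fun i => ρ (p i)) k m' hb with h4 | ⟨i, hi, h4⟩
    · exact ⟨0, by rw [h4, dF_self]; exact Nat.zero_le _⟩
    · refine ⟨i, ?_⟩
      have h5 := hL _ _ (hp i hi)
      have h6 : dF (ρ (p i)) m' + dF m' (ρ (p (i + 1))) = dF (ρ (p i)) (ρ (p (i + 1))) := h4
      rw [dF_comm m']
      omega
  obtain ⟨i, hi⟩ := key
  refine ⟨p i, pH i, ?_⟩
  have e1 := h.lip m' (ρ (p i))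
  have e2 := h.near (p i)
  have e3 := h.tri (σ m') (σ (ρ (p i))) (p i)
  have e4 := h.tri m (σ m') (p i)
  have c4 := SimpleGraph.dist_comm (G := Cay S) (u := σ (ρ (p i))) (v := p i)
  omega

section construct

variable (N : Subgroup G) [N.FiniteIndex] (e : N ≃* FreeGroup α)

/-- The coset representative. -/
noncomputable def tr (g : G) : G := ((g⁻¹ : G) : G ⧸ N).out

theorem tr_mem (g : G) : g * tr N g ∈ N := by
  obtain ⟨n, hn⟩ := QuotientGroup.mk_out_eq_mul N g⁻¹
  unfold tr
  rw [hn, mul_inv_cancel_left]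
  exact n.2

/-- The map to the tree. -/
noncomputable def rho (g : G) : FreeGroup α := e ⟨g * tr N g, tr_mem N g⟩

/-- The map from the tree. -/
def sig (x : FreeGroup α) : G := (e.symm x : G)

theorem sig_rho (g : G) : sig N e (rho N e g) = g * tr N g := by
  unfold sig rho
  rw [e.symm_apply_apply]

/-- The generating set. -/
def SS : Set G := (Set.range fun a => sig N e (FreeGroup.of a)) ∪
  Set.range fun q : G ⧸ N => q.out

theorem data [Finite α] : Data (SS N e) (rho N e) (sig N e) := by
  have hfin : (SS N e).Finite := (Set.finite_range _).union (Set.finite_range _)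
  have hN : ∀ x : FreeGroup α, sig N e x ∈ Subgroup.closure (SS N e) := by
    intro x
    induction x using FreeGroup.induction_on with
    | C1 =>
      unfold sig
      rw [_root_.map_one, Subgroup.coe_one]
      exact Subgroup.one_mem _
    | of a => exact Subgroup.subset_closure (Or.inl ⟨a, rfl⟩)
    | inv_of a ha =>
      unfold sig at ha ⊢
      rw [_root_.map_inv, Subgroup.coe_inv]
      exact Subgroup.inv_mem _ ha
    | mul x y hx hy =>
      unfold sig at hx hy ⊢
      rw [_root_.map_mul, Subgroup.coe_mul]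
      exact Subgroup.mul_mem _ hx hy
  have hgen : IsFinGen (SS N e) := by
    refine ⟨hfin, ?_⟩
    rw [eq_top_iff]
    intro g _
    have h1 := hN (rho N e g)
    rw [sig_rho] at h1
    have h2 : tr N g ∈ Subgroup.closure (SS N e) := Subgroup.subset_closure (Or.inr ⟨_, rfl⟩)
    have h3 := Subgroup.mul_mem _ h1 (Subgroup.inv_mem _ h2)
    rwa [mul_inv_cancel_right] at h3
  refine ⟨hgen, ?_, ?_, ?_⟩
  · intro x y
    obtain ⟨p, hp⟩ := exists_walk _ x y rfl
    rw [← hp]
    clear hp
    induction p with
    | nil => rw [SimpleGraph.dist_self]; exact Nat.zero_le _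
    | @cons u v w h q ih =>
      rw [SimpleGraph.Walk.length_cons]
      have h1 : (Cay (SS N e)).dist (sig N e u) (sig N e v) ≤ 1 := by
        by_cases he : sig N e u = sig N e v
        · rw [he, SimpleGraph.dist_self]
          exact Nat.zero_le _
        · apply le_of_eq
          rw [SimpleGraph.dist_eq_one_iff_adj]
          refine ⟨he, ?_⟩
          have h3 : ∀ x y : FreeGroup α, (sig N e x)⁻¹ * sig N e y = sig N e (x⁻¹ * y) := by
            intro x y
            unfold sig
            rw [_root_.map_mul, _root_.map_inv]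
            rfl
          rw [h3, h3]
          rcases h.2 with ⟨a, ha⟩ | ⟨a, ha⟩
          · left
            exact Or.inl ⟨a, by simp only; rw [ha]⟩
          · right
            exact Or.inl ⟨a, by simp only; rw [ha]⟩
      have h2 := (cay_conn hgen).dist_triangle (u := sig N e u) (v := sig N e v) (w := sig N e w)
      omega
  · intro g
    by_cases he : g = sig N e (rho N e g)
    · rw [← he, SimpleGraph.dist_self]
      exact Nat.zero_le _
    · apply le_of_eq
      rw [SimpleGraph.dist_eq_one_iff_adj]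
      refine ⟨he, Or.inl ?_⟩
      rw [sig_rho, inv_mul_cancel_left]
      exact Or.inr ⟨_, rfl⟩
  · classical
    intro U hU
    obtain ⟨L, hL⟩ := bdd_of_finite (β := G)
      (((Set.finite_range fun q : G ⧸ N => q.out⁻¹).mul hU).mul
        (Set.finite_range fun q : G ⧸ N => q.out))
      (fun x => if hx : x ∈ N then (e ⟨x, hx⟩).norm else 0)
    refine ⟨L, fun g g' hg => ?_⟩
    have h1 : (g * tr N g)⁻¹ * (g' * tr N g') ∈ N :=
      N.mul_mem (N.inv_mem (tr_mem N g)) (tr_mem N g')
    have h2 := hL ((g * tr N g)⁻¹ * (g' * tr N g')) (by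
      refine ⟨(tr N g)⁻¹ * (g⁻¹ * g'), ⟨(tr N g)⁻¹, ⟨_, rfl⟩, _, hg, rfl⟩, tr N g', ⟨_, rfl⟩, ?_⟩
      simp only
      group)
    simp only [dif_pos h1] at h2
    have h3 : dF (rho N e g) (rho N e g') = (e ⟨_, h1⟩).norm := by
      unfold dF rho
      rw [← _root_.map_inv, ← _root_.map_mul]
      rfl
    rw [h3]
    exact h2

end construct

theorem finite_of_fg {β : Type} (h : Group.FG (FreeGroup β)) : Finite β := by
  classical
  obtain ⟨s, hs, hsf⟩ := Group.fg_iff.1 h
  by_contra hinf
  rw [not_finite_iff_infinite] at hinf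
  set A : Set β := ⋃ g ∈ s, {b | b ∈ g.toWord.map Prod.fst} with hA
  have hAf : A.Finite := hsf.biUnion fun g _ => List.finite_toSet _
  obtain ⟨b, hb⟩ := hAf.exists_notMem
  let φ : FreeGroup β →* Multiplicative ℤ :=
    FreeGroup.lift fun c => if c ∈ A then 1 else Multiplicative.ofAdd 1
  have h1 : ∀ L : List (β × Bool), (∀ c ∈ L.map Prod.fst, c ∈ A) → φ (mk L) = 1 := by
    intro L
    induction L with
    | nil => intro _; exact φ.map_one
    | cons a L ih =>
      intro hL
      have e1 : (mk (a :: L) : FreeGroup β) = mk [a] * mk L := by rw [mul_mk]; rfl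
      rw [e1, φ.map_mul, ih (fun c hc => hL c (List.mem_cons_of_mem _ hc)), mul_one]
      have h2 : a.1 ∈ A := hL a.1 (by simp)
      show FreeGroup.lift _ (mk [a]) = 1
      rw [FreeGroup.lift_mk]
      simp [h2]
  have h2 : Subgroup.closure s ≤ φ.ker := by
    rw [Subgroup.closure_le]
    intro g hg
    rw [SetLike.mem_coe, MonoidHom.mem_ker, ← mk_toWord (x := g)]
    apply h1
    intro c hc
    exact Set.mem_biUnion hg hc
  have h3 : FreeGroup.of b ∈ φ.ker := by
    apply h2
    rw [hs]
    exact Subgroup.mem_top _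
  rw [MonoidHom.mem_ker] at h3
  have h4 : φ (FreeGroup.of b) = Multiplicative.ofAdd 1 := by
    show FreeGroup.lift _ (FreeGroup.of b) = _
    rw [FreeGroup.lift_apply_of, if_neg hb]
  rw [h4] at h3
  exact absurd h3 (by decide)

/-- Finitely generated subgroups of finitely generated virtually free groups are virtual
retracts. -/
theorem main (G : Type) [Group G] [Group.FG G] (F : Subgroup G) [F.FiniteIndex]
    (hF : IsFreeGroup F) (H : Subgroup G) (hH : H.FG) : IsVirtualRetract H := by
  classical
  let e := IsFreeGroup.toFreeGroup F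
  have hFG : Group.FG F := Subgroup.fg_of_index_ne_zero F
  have hfg : Group.FG (FreeGroup (IsFreeGroup.Generators F)) :=
    Group.fg_of_surjective (f := (e : F →* FreeGroup (IsFreeGroup.Generators F))) e.surjective
  have hfin : Finite (IsFreeGroup.Generators F) := finite_of_fg hfg
  have d := data F e
  exact main_top d.hyperbolic ⟨F, inferInstance, compactSpecial e⟩ H (d.quasiconvex hH)

end Q27.LR
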