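import Pool.Agent.Q27.LR.Words
import Pool.Agent.TH97.VR.Top

/-!
# Free groups of finite rank are compact special
-/

set_option autoImplicit false

namespace Q27.LR

open FreeGroup Pool.Agent.TH97.VR Pool.Agent.H97R3.VR

variable {α : Type} [DecidableEq α]

/-- The Cayley tree. -/
abbrev TT (α : Type) : SimpleGraph (FreeGroup α) := Cay (Set.range FreeGroup.of)

theorem dF_triangle (x y z : FreeGroup α) : dF x z ≤ dF x y + dF y z := by
  unfold dF
  have h : x⁻¹ * z = (x⁻¹ * y) * (y⁻¹ * z) := by group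
  rw [h]
  exact norm_mul_le _ _

theorem norm_eq_one {g : FreeGroup α} (h : g.norm = 1) : ∃ a, g = FreeGroup.of a ∨
    g = (FreeGroup.of a)⁻¹ := by
  unfold FreeGroup.norm at h
  obtain ⟨⟨a, b⟩, hab⟩ := List.length_eq_one_iff.1 h
  refine ⟨a, ?_⟩
  have h1 : g = mk [(a, b)] := by rw [← hab, mk_toWord]
  cases b
  · right
    rw [h1]
    rfl
  · left
    rw [h1]
    rfl

theorem adj_iff (x y : FreeGroup α) : (TT α).Adj x y ↔ dF x y = 1 := by
  constructor
  · rintro ⟨-, ⟨a, ha⟩ | ⟨a, ha⟩⟩
    · unfold dF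
      rw [← ha, norm_of]
    · rw [dF_comm]
      unfold dF
      rw [← ha, norm_of]
  · intro h
    refine ⟨fun e => ?_, ?_⟩
    · rw [e, dF_self] at h
      omega
    · obtain ⟨a, ha | ha⟩ := norm_eq_one h
      · exact Or.inl ⟨a, ha.symm⟩
      · right
        refine ⟨a, ?_⟩
        rw [← inv_inv (FreeGroup.of a), ← ha]
        group

theorem exists_walk (n : ℕ) (x y : FreeGroup α) (h : dF x y = n) :
    ∃ p : (TT α).Walk x y, p.length = n := by
  induction n generalizing y with
  | zero =>
    have := dF_eq_zero h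
    subst this
    exact ⟨SimpleGraph.Walk.nil, rfl⟩
  | succ n ih =>
    have h1 : n ≤ (x⁻¹ * y).norm := by
      have : (x⁻¹ * y).norm = n + 1 := h
      omega
    have h2 : dF x (x * pre n (x⁻¹ * y)) = n := by
      unfold dF
      rw [inv_mul_cancel_left, norm_pre h1]
    have h3 : dF (x * pre n (x⁻¹ * y)) y = 1 := by
      have a1 := norm_inv_mul (pre n (x⁻¹ * y)) (x⁻¹ * y)
      rw [lcp_pre h1, norm_pre h1] at a1
      have a2 : dF (x * pre n (x⁻¹ * y)) y = ((pre n (x⁻¹ * y))⁻¹ * (x⁻¹ * y)).norm := by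
        unfold dF
        congr 1
        group
      have a3 : (x⁻¹ * y).norm = n + 1 := h
      omega
    obtain ⟨p, hp⟩ := ih _ h2
    refine ⟨p.concat ((adj_iff _ _).2 h3), ?_⟩
    rw [SimpleGraph.Walk.length_concat, hp]

theorem tt_conn : (TT α).Connected := by
  have : Nonempty (FreeGroup α) := ⟨1⟩
  exact SimpleGraph.Connected.mk fun x y => ⟨(exists_walk _ x y rfl).choose⟩

theorem dist_eq (x y : FreeGroup α) : (TT α).dist x y = dF x y := by
  apply le_antisymm
  · obtain ⟨p, hp⟩ := exists_walk _ x y rfl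
    rw [← hp]
    exact SimpleGraph.dist_le p
  · have h : ∀ (x y : FreeGroup α) (p : (TT α).Walk x y), dF x y ≤ p.length := by
      intro x y p
      induction p with
      | nil => rw [dF_self]; exact Nat.zero_le _
      | @cons u v w h q ih =>
        rw [SimpleGraph.Walk.length_cons]
        have h1 := dF_triangle u v w
        rw [(adj_iff u v).1 h] at h1
        omega
    obtain ⟨p, hp⟩ := tt_conn.exists_walk_length_eq_dist x y
    rw [← hp]
    exact h x y p

theorem btw_iff (u v m : FreeGroup α) : Btw (TT α) u v m ↔ Bt u v m := by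
  unfold Pool.Agent.H97R3.VR.Btw Bt
  rw [dist_eq, dist_eq, dist_eq]

theorem tt_median : IsMedian (TT α) := by
  refine ⟨tt_conn, fun u v w => ?_⟩
  simp only [btw_iff]
  exact median u v w

theorem no_square (x y w z : FreeGroup α) : ¬ Square (TT α) x y w z := by
  intro h
  have h1 := (adj_iff _ _).1 h.xy
  have h2 := (adj_iff _ _).1 h.yw
  have h3 := (adj_iff _ _).1 h.wz.symm
  have h4 := (adj_iff _ _).1 h.zx.symm
  have h5 : dF x w ≠ 0 := fun e => h.ne (dF_eq_zero e)
  have a1 := dF_eq x y w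
  have a2 := dF_eq x z w
  have l1 := lcp_le (x⁻¹ * y) (x⁻¹ * w)
  have l2 := lcp_le (x⁻¹ * z) (x⁻¹ * w)
  have n1 : (x⁻¹ * y).norm = 1 := h1
  have n2 : (x⁻¹ * z).norm = 1 := h4
  have n3 : dF z w = 1 := by rw [dF_comm]; exact (adj_iff _ _).1 h.wz
  have e1 : lcp (x⁻¹ * y) (x⁻¹ * w) = 1 := by omega
  have e2 : lcp (x⁻¹ * z) (x⁻¹ * w) = 1 := by omega
  have f1 := eq_pre_of_lcp (e1.trans n1.symm)
  have f2 := eq_pre_of_lcp (e2.trans n2.symm)
  rw [n1] at f1
  rw [n2] at f2
  exact h.ne' (mul_left_cancel (f1.trans f2.symm))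

section act

variable {N : Type} [Group N]

theorem compactSpecial [Finite α] (e : N ≃* FreeGroup α) : CompactSpecial N := by
  letI act : MulAction N (FreeGroup α) := MulAction.compHom (FreeGroup α) (e : N →* FreeGroup α)
  have hsm : ∀ (n : N) (v : FreeGroup α), n • v = e n * v := fun _ _ => rfl
  have hopar : ∀ (p q : FreeGroup α × FreeGroup α), OPar (TT α) (⊤ : Subgroup N) p q →
      p.1⁻¹ * p.2 = q.1⁻¹ * q.2 := by
    intro p q h
    induction h with
    | rel p q h =>
      cases h with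
      | sq x y w z h => exact absurd h (no_square x y w z)
      | act n hn x y =>
        rw [hsm, hsm]
        group
    | refl p => rfl
    | symm p q _ ih => exact ih.symm
    | trans p q r _ _ ih1 ih2 => exact ih1.trans ih2
  refine ⟨FreeGroup α, act, TT α, tt_median, ?_, ?_, ?_, ?_, ?_, ?_, ?_, ?_⟩
  · intro v
    have h1 : (TT α).neighborSet v ⊆ ((fun a => v * FreeGroup.of a) '' Set.univ) ∪
        ((fun a => v * (FreeGroup.of a)⁻¹) '' Set.univ) := by
      intro w hw
      have hw' : (TT α).Adj v w := hw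
      obtain ⟨a, ha | ha⟩ := norm_eq_one ((adj_iff _ _).1 hw')
      · left
        exact ⟨a, Set.mem_univ _, by simp only; rw [← ha, mul_inv_cancel_left]⟩
      · right
        exact ⟨a, Set.mem_univ _, by simp only; rw [← ha, mul_inv_cancel_left]⟩
    exact (((Set.toFinite _).image _).union ((Set.toFinite _).image _)).subset h1
  · intro n x y h
    rw [hsm, hsm, adj_iff, dF_mul, ← adj_iff]
    exact h
  · intro n _ x hx
    rw [hsm, mul_eq_right] at hx
    exact (map_eq_one_iff e e.injective).1 hx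
  · refine ⟨{1}, Set.finite_singleton _, fun v => ⟨e.symm v⁻¹, Subgroup.mem_top _, ?_⟩⟩
    rw [hsm, e.apply_symm_apply, inv_mul_cancel]
    exact Set.mem_singleton _
  · intro x y hxy h
    have h1 : x⁻¹ * y = y⁻¹ * x := hopar _ _ h
    obtain ⟨a, ha | ha⟩ := norm_eq_one ((adj_iff _ _).1 hxy)
    · have h2 : y⁻¹ * x = (FreeGroup.of a)⁻¹ := by rw [← ha]; group
      rw [ha, h2] at h1
      have h3 := congrArg (FreeGroup.lift (fun _ : α => Multiplicative.ofAdd (1 : ℤ))) h1
      rw [_root_.map_inv, FreeGroup.lift_apply_of] at h3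
      exact absurd h3 (by decide)
    · have h2 : y⁻¹ * x = FreeGroup.of a := by
        rw [← inv_inv (FreeGroup.of a), ← ha]; group
      rw [ha, h2] at h1
      have h3 := congrArg (FreeGroup.lift (fun _ : α => Multiplicative.ofAdd (1 : ℤ))) h1
      rw [_root_.map_inv, FreeGroup.lift_apply_of] at h3
      exact absurd h3 (by decide)
  · intro p q r o h
    exact absurd h (no_square _ _ _ _)
  · intro x y z _ _ h
    have h1 : x⁻¹ * y = x⁻¹ * z := hopar _ _ h
    exact mul_left_cancel h1
  · rintro x y z _ _ ⟨p, q, r, o, h, -⟩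
    exact absurd h (no_square _ _ _ _)

end act

end Q27.LR
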