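import Mathlib

/-!
# The word metric of a free group
-/

set_option autoImplicit false

namespace Q27.LR

open FreeGroup

variable {α : Type} [DecidableEq α]

/-- The length of the longest common prefix. -/
def lcpL {β : Type} [DecidableEq β] : List β → List β → ℕ
  | a :: s, b :: t => if a = b then lcpL s t + 1 else 0
  | [], _ => 0
  | _ :: _, [] => 0

section lists

variable {β : Type} [DecidableEq β]

theorem lcpL_nil_left (t : List β) : lcpL [] t = 0 := by
  cases t <;> rfl

theorem lcpL_nil_right (t : List β) : lcpL t [] = 0 := by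
  cases t <;> rfl

theorem lcpL_cons (a b : β) (s t : List β) :
    lcpL (a :: s) (b :: t) = if a = b then lcpL s t + 1 else 0 := rfl

theorem lcpL_comm (s t : List β) : lcpL s t = lcpL t s := by
  induction s generalizing t with
  | nil => rw [lcpL_nil_left, lcpL_nil_right]
  | cons a s ih =>
    cases t with
    | nil => rw [lcpL_nil_left, lcpL_nil_right]
    | cons b t =>
      rw [lcpL_cons, lcpL_cons, ih]
      by_cases h : a = b
      · rw [if_pos h, if_pos h.symm]
      · rw [if_neg h, if_neg (fun h' => h h'.symm)]

theorem lcpL_le (s t : List β) : lcpL s t ≤ s.length := by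
  induction s generalizing t with
  | nil => rw [lcpL_nil_left]; exact Nat.zero_le _
  | cons a s ih =>
    cases t with
    | nil => rw [lcpL_nil_right]; exact Nat.zero_le _
    | cons b t =>
      rw [lcpL_cons, List.length_cons]
      split_ifs
      · exact Nat.succ_le_succ (ih t)
      · exact Nat.zero_le _

theorem lcpL_prefix (s t : List β) : s.take (lcpL s t) = t.take (lcpL s t) := by
  induction s generalizing t with
  | nil => rw [lcpL_nil_left]; simp
  | cons a s ih =>
    cases t with
    | nil => rw [lcpL_nil_right]; simp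
    | cons b t =>
      rw [lcpL_cons]
      split_ifs with h
      · rw [List.take_succ_cons, List.take_succ_cons, ih t, h]
      · simp

theorem le_lcpL {s t : List β} {n : ℕ} (hn : n ≤ s.length) (hn' : n ≤ t.length)
    (h : s.take n = t.take n) : n ≤ lcpL s t := by
  induction n generalizing s t with
  | zero => exact Nat.zero_le _
  | succ n ih =>
    cases s with
    | nil => simp at hn
    | cons a s =>
      cases t with
      | nil => simp at hn'
      | cons b t =>
        rw [List.take_succ_cons, List.take_succ_cons, List.cons.injEq] at h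
        rw [lcpL_cons, if_pos h.1]
        exact Nat.succ_le_succ (ih (by simpa using hn) (by simpa using hn') h.2)

theorem lcpL_zero_trans {s t u : List β} (h : lcpL s u = 0) : lcpL s t = 0 ∨ lcpL t u = 0 := by
  cases s with
  | nil => exact Or.inl (lcpL_nil_left _)
  | cons a s =>
    cases u with
    | nil => exact Or.inr (lcpL_nil_right _)
    | cons c u =>
      cases t with
      | nil => exact Or.inl (lcpL_nil_right _)
      | cons b t =>
        rw [lcpL_cons] at h ⊢
        rw [lcpL_cons]
        by_cases h1 : a = b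
        · right
          rw [if_neg]
          intro h2
          rw [if_pos (h1.trans h2)] at h
          omega
        · left
          rw [if_neg h1]

end lists

theorem reduce_cancel (L M : List (α × Bool)) (a : α × Bool) :
    reduce (invRev (a :: L) ++ (a :: M)) = reduce (invRev L ++ M) := by
  apply reduce.sound
  rw [← mul_mk, ← mul_mk, ← inv_mk, ← inv_mk]
  have h1 : (mk (a :: L) : FreeGroup α) = mk [a] * mk L := by rw [mul_mk]; rfl
  have h2 : (mk (a :: M) : FreeGroup α) = mk [a] * mk M := by rw [mul_mk]; rfl
  rw [h1, h2]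
  group

theorem length_reduce_inv (s t : List (α × Bool)) (hs : IsReduced s) (ht : IsReduced t) :
    (reduce (invRev s ++ t)).length + 2 * lcpL s t = s.length + t.length := by
  induction s generalizing t with
  | nil =>
    rw [lcpL_nil_left]
    have : (invRev ([] : List (α × Bool))) = [] := rfl
    rw [this, List.nil_append, ht.reduce_eq, List.length_nil]
    omega
  | cons a s ih =>
    cases t with
    | nil =>
      rw [lcpL_nil_right, List.append_nil, reduce_invRev, hs.reduce_eq, invRev_length]
      simp
    | cons b t =>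
      rw [lcpL_cons]
      by_cases h : a = b
      · subst h
        rw [if_pos rfl, reduce_cancel, List.length_cons, List.length_cons]
        have hs' : IsReduced s := List.IsChain.tail hs
        have ht' : IsReduced t := List.IsChain.tail ht
        have := ih t hs' ht'
        omega
      · rw [if_neg h]
        have h1 : IsReduced (invRev (a :: s) ++ (b :: t)) := by
          have h2 : invRev (a :: s) = invRev s ++ [(a.1, !a.2)] := by
            simp [invRev]
          have h3 : IsReduced (invRev (a :: s)) := by
            rw [isReduced_iff_reduce_eq, reduce_invRev, hs.reduce_eq]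
          rw [h2] at h3 ⊢
          refine IsReduced.append_overlap h3 ?_ (by simp)
          rw [List.singleton_append, isReduced_cons_cons]
          refine ⟨fun h4 => ?_, ht⟩
          by_contra h5
          apply h
          have h6 : a.2 = b.2 := by
            simp only at h5
            revert h5
            cases a.2 <;> cases b.2 <;> simp
          exact Prod.ext_iff.2 ⟨h4, h6⟩
        rw [h1.reduce_eq, List.length_append, invRev_length]
        omega

/-- The distance in the Cayley tree. -/
def dF (x y : FreeGroup α) : ℕ := (x⁻¹ * y).norm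

/-- The length of the longest common prefix. -/
def lcp (x y : FreeGroup α) : ℕ := lcpL x.toWord y.toWord

theorem norm_inv_mul (x y : FreeGroup α) : (x⁻¹ * y).norm + 2 * lcp x y = x.norm + y.norm := by
  have h := length_reduce_inv x.toWord y.toWord isReduced_toWord isReduced_toWord
  have h1 : (x⁻¹ * y).norm = (reduce (invRev x.toWord ++ y.toWord)).length := by
    unfold FreeGroup.norm
    rw [toWord_mul, toWord_inv]
  rw [h1]
  exact h

theorem dF_eq (m x y : FreeGroup α) :
    dF x y + 2 * lcp (m⁻¹ * x) (m⁻¹ * y) = dF m x + dF m y := by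
  have h := norm_inv_mul (m⁻¹ * x) (m⁻¹ * y)
  have h1 : (m⁻¹ * x)⁻¹ * (m⁻¹ * y) = x⁻¹ * y := by group
  rw [h1] at h
  exact h

theorem dF_comm (x y : FreeGroup α) : dF x y = dF y x := by
  unfold dF
  rw [← norm_inv_eq]
  congr 1
  group

theorem dF_self (x : FreeGroup α) : dF x x = 0 := by
  unfold dF
  rw [inv_mul_cancel, FreeGroup.norm_one]

theorem dF_eq_zero {x y : FreeGroup α} (h : dF x y = 0) : x = y := by
  unfold dF at h
  rw [FreeGroup.norm_eq_zero, inv_mul_eq_one] at h
  exact h

/-- `m` lies between `x` and `y`. -/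
def Bt (x y m : FreeGroup α) : Prop := dF x m + dF m y = dF x y

theorem Bt_iff (x y m : FreeGroup α) : Bt x y m ↔ lcp (m⁻¹ * x) (m⁻¹ * y) = 0 := by
  have h := dF_eq m x y
  have h1 := dF_comm m x
  unfold Bt
  constructor <;> intro h2 <;> omega

theorem Bt.symm {x y m : FreeGroup α} (h : Bt x y m) : Bt y x m := by
  unfold Bt at *
  rw [dF_comm y m, dF_comm m x, dF_comm y x]
  omega

/-- A tree property. -/
theorem Bt.tri {x z m : FreeGroup α} (h : Bt x z m) (y : FreeGroup α) : Bt x y m ∨ Bt y z m := by
  rw [Bt_iff, Bt_iff] at *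
  exact lcpL_zero_trans h

/-- The bottleneck property. -/
theorem bottleneck (p : ℕ → FreeGroup α) (k : ℕ) (m : FreeGroup α) (h : Bt (p 0) (p k) m) :
    m = p 0 ∨ ∃ i < k, Bt (p i) (p (i + 1)) m := by
  induction k with
  | zero =>
    left
    unfold Bt at h
    rw [dF_self] at h
    exact (dF_eq_zero (by omega : dF (p 0) m = 0)).symm
  | succ k ih =>
    rcases h.tri (p k) with h1 | h1
    · rcases ih h1 with h2 | ⟨i, hi, h2⟩
      · exact Or.inl h2
      · exact Or.inr ⟨i, by omega, h2⟩
    · exact Or.inr ⟨k, by omega, h1⟩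

/-- The prefix. -/
def pre (n : ℕ) (v : FreeGroup α) : FreeGroup α := mk (v.toWord.take n)

theorem toWord_pre (n : ℕ) (v : FreeGroup α) : (pre n v).toWord = v.toWord.take n := by
  unfold pre
  rw [toWord_mk, IsReduced.reduce_eq]
  exact List.IsChain.take (isReduced_toWord (x := v)) n

theorem norm_pre {n : ℕ} {v : FreeGroup α} (h : n ≤ v.norm) : (pre n v).norm = n := by
  unfold FreeGroup.norm
  rw [toWord_pre, List.length_take]
  exact min_eq_left h

theorem lcp_le (x y : FreeGroup α) : lcp x y ≤ x.norm := lcpL_le _ _

theorem lcp_comm (x y : FreeGroup α) : lcp x y = lcp y x := lcpL_comm _ _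

theorem lcp_le' (x y : FreeGroup α) : lcp x y ≤ y.norm := by
  rw [lcp_comm]
  exact lcp_le _ _

theorem lcp_pre {n : ℕ} {v : FreeGroup α} (h : n ≤ v.norm) : lcp (pre n v) v = n := by
  apply le_antisymm
  · have := lcp_le (pre n v) v
    rwa [norm_pre h] at this
  · apply le_lcpL
    · have h1 := norm_pre h
      unfold FreeGroup.norm at h1
      omega
    · exact h
    · rw [toWord_pre, List.take_take, min_self]

theorem eq_pre_of_lcp {m v : FreeGroup α} (h : lcp m v = m.norm) : m = pre m.norm v := by
  apply toWord_injective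
  rw [toWord_pre]
  have h1 := lcpL_prefix m.toWord v.toWord
  have h2 : lcpL m.toWord v.toWord = m.norm := h
  rw [h2] at h1
  rw [← h1]
  unfold FreeGroup.norm
  rw [List.take_length]

/-- The median of `1`, `v`, `w`. -/
theorem median_one (v w : FreeGroup α) :
    ∃! m : FreeGroup α, Bt 1 v m ∧ Bt v w m ∧ Bt 1 w m := by
  have d1 : ∀ x : FreeGroup α, dF 1 x = x.norm := by
    intro x
    unfold dF
    rw [inv_one, one_mul]
  refine ⟨pre (lcp v w) v, ?_, ?_⟩
  · have hv := lcp_le v w
    have hw := lcp_le' v w
    have e : pre (lcp v w) v = pre (lcp v w) w := by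
      apply toWord_injective
      rw [toWord_pre, toWord_pre]
      exact lcpL_prefix _ _
    have n1 := norm_pre hv
    have a1 := norm_inv_mul (pre (lcp v w) v) v
    rw [lcp_pre hv, n1] at a1
    have a2 := norm_inv_mul (pre (lcp v w) v) w
    rw [e, lcp_pre hw, ← e, n1] at a2
    have a3 := norm_inv_mul v w
    have b1 : dF (pre (lcp v w) v) v = ((pre (lcp v w) v)⁻¹ * v).norm := rfl
    have b2 : dF (pre (lcp v w) v) w = ((pre (lcp v w) v)⁻¹ * w).norm := rfl
    have b3 : dF v w = (v⁻¹ * w).norm := rfl
    have b4 := dF_comm v (pre (lcp v w) v)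
    unfold Bt
    simp only [d1]
    rw [n1]
    refine ⟨by omega, by omega, by omega⟩
  · rintro m ⟨h1, h2, h3⟩
    unfold Bt at h1 h2 h3
    rw [d1, d1] at h1 h3
    have a1 := norm_inv_mul m v
    have a2 := norm_inv_mul m w
    have a3 := norm_inv_mul v w
    have b1 : dF m v = (m⁻¹ * v).norm := rfl
    have b2 : dF m w = (m⁻¹ * w).norm := rfl
    have b3 : dF v w = (v⁻¹ * w).norm := rfl
    have b4 := dF_comm v m
    have e1 : lcp m v = m.norm := by omega
    have e2 : m.norm = lcp v w := by omega
    rw [← e2]
    exact eq_pre_of_lcp e1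

theorem dF_mul (g x y : FreeGroup α) : dF (g * x) (g * y) = dF x y := by
  unfold dF
  congr 1
  group

theorem Bt_mul (g x y m : FreeGroup α) : Bt (g * x) (g * y) (g * m) ↔ Bt x y m := by
  unfold Bt
  rw [dF_mul, dF_mul, dF_mul]

theorem median (u v w : FreeGroup α) : ∃! m : FreeGroup α, Bt u v m ∧ Bt v w m ∧ Bt u w m := by
  obtain ⟨m, h, huniq⟩ := median_one (u⁻¹ * v) (u⁻¹ * w)
  have e : ∀ m', (Bt u v (u * m') ∧ Bt v w (u * m') ∧ Bt u w (u * m')) ↔
      (Bt 1 (u⁻¹ * v) m' ∧ Bt (u⁻¹ * v) (u⁻¹ * w) m' ∧ Bt 1 (u⁻¹ * w) m') := by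
    intro m'
    rw [← Bt_mul u 1 (u⁻¹ * v), ← Bt_mul u (u⁻¹ * v) (u⁻¹ * w), ← Bt_mul u 1 (u⁻¹ * w), mul_one,
      mul_inv_cancel_left, mul_inv_cancel_left]
  refine ⟨u * m, (e m).2 h, ?_⟩
  intro m' hm'
  have h1 := huniq (u⁻¹ * m') ((e _).1 (by rwa [mul_inv_cancel_left]))
  rw [← h1, mul_inv_cancel_left]

end Q27.LR
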